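import Pool.Agent.H38.SecP.Thr
import Pool.Agent.H38.SecP.Riemannian

/-!
# The Bochner term on symmetric `p`-tensors under intermediate Ricci curvature conditions

For a Riemannian manifold of dimension `n ≥ 2` and `p ≥ 1` put `κ = (n + p - 2) / p`, a real
number, and `k(n, p) = ⌊κ⌋`.  The condition `RicGe n R κ 0` says that for every orthonormal basis
`b`, every index `i` and all weights `t j ∈ [0, 1]` with `t i = 0` and `∑ t j = κ` the sum
`∑ t j * sec (b i) (b j)` is nonnegative.  Only planes through a common vector occur, and the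
total weight is not rounded down, so the condition is weaker than `k(n, p)`-nonnegative sectional
curvature.

* The condition at a point `x` implies `K(R, Sym^p) ≥ 0` at `x`; more precisely, a lower bound `c`
  for the weighted sums implies `⟨K(R, Sym^p) φ, φ⟩ ≥ p ^ 2 c |φ| ^ 2` for the trace-free
  symmetric `p`-tensors `φ`.
* Both `κ` and `k(n, p)` are optimal, for all `n ≥ 2` and `p ≥ 1`: the algebraic curvature tensors
  with `sec = s - (1 + s) ω ^ 2`, `ω` the area form of a plane, satisfy the condition with a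
  larger weight for a suitable `s`, and `K(R, Sym^p)` is negative on `Re (x₁ + i x₂) ^ p`.

The part on the maximum of `φ (v, ..., v)` on the unit sphere follows the earlier proof for
`k(n, p)`-nonnegative sectional curvature.
-/

open Bundle Manifold ContDiff
open Pool.Agent.H38.SecP Pool.Agent.H38.SecP.Riem

namespace Pool.Agent.Results.MP_b296c2_gt.IntermediateRicci

universe u v w

theorem result :
    (∀ (E : Type u) [NormedAddCommGroup E] [NormedSpace ℝ E] [FiniteDimensional ℝ E]
      (H : Type v) [TopologicalSpace H] (I : ModelWithCorners ℝ E H)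
      (M : Type w) [TopologicalSpace M] [ChartedSpace H M] [IsManifold I ∞ M]
      [T2Space M] [SigmaCompactSpace M]
      [RiemannianBundle (fun x : M => TangentSpace I x)]
      [IsContMDiffRiemannianBundle I ∞ E (fun x : M => TangentSpace I x)]
      (n p : ℕ), Module.finrank ℝ E = n → 2 ≤ n → 1 ≤ p →
      ∀ cov : CovariantDerivative I E (TangentSpace I : M → Type _), IsLeviCivita cov →
      (∃ R : CurvField I M, IsRiemannTensor cov R) ∧
      ∀ R : CurvField I M, IsRiemannTensor cov R → ∀ x : M,
        (KNonnegSec n (R x) ((n + p - 2) / p) → RicGe n (R x) (wt n p) 0) ∧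
        (RicGe n (R x) (wt n p) 0 → SymNonneg n p (R x)) ∧
        ∀ c : ℝ, RicGe n (R x) (wt n p) c → TraceFreeGe n p (R x) (p ^ 2 * c)) ∧
    ∀ n p : ℕ, 2 ≤ n → 1 ≤ p →
      (∀ k : ℕ, 1 ≤ k → (SecSuffices n p k ↔ k ≤ (n + p - 2) / p)) ∧
      ∀ κ : ℝ, 1 ≤ κ → (RicSuffices n p κ ↔ κ ≤ wt n p) := by
  refine ⟨?_, fun n p hn hp => ⟨fun k hk => sec_threshold hn hp hk,
    fun κ hκ => ric_threshold hn hp hκ⟩⟩
  intro E _ _ _ H _ I M _ _ _ _ _ _ _ n p hdim hn hp cov hcov
  have hnt : Nontrivial E := Module.nontrivial_of_finrank_pos (R := ℝ) (by omega)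
  refine ⟨exists_riemann hcov, fun R hR x => ?_⟩
  have hRx := isCurvatureTensor hcov hR x
  have hp0 : (0 : ℝ) < p := by exact_mod_cast hp
  have hn0 : (2 : ℝ) ≤ n := by exact_mod_cast hn
  have hκ : 1 ≤ ((n : ℝ) + p - 2) / p := by
    rw [le_div_iff₀ hp0]
    linarith
  have hκp : (((n : ℝ) + p - 2) / p - 1) * p + 2 ≤ n := by
    rw [sub_mul, div_mul_cancel₀ _ hp0.ne']
    linarith
  have hcast : ((n + p - 2 : ℕ) : ℝ) = (n : ℝ) + p - 2 := by
    rw [Nat.cast_sub (by omega)]
    push_cast
    ring
  refine ⟨fun h => ?_, fun h e φ hφ => main_nonneg hκ hκp (R x) hRx h e φ hφ, ?_⟩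
  · refine ricGe_of_kNonnegSec (k := (n + p - 2) / p) ?_ ?_ hRx h
    · rw [Nat.one_le_div_iff (by omega)]
      omega
    · unfold wt
      rw [← hcast]
      exact Nat.cast_div_le
  · intro c h e φ hs ht
    refine le_of_eq_of_le ?_ (quantitative hκ hκp hRx h e φ hs ht)
    congr 1
    have h1 : (n : ℝ) + p - 2 ≠ 0 := by
      have : (0 : ℝ) < (n : ℝ) + p - 2 := by linarith
      exact this.ne'
    field_simp

end Pool.Agent.Results.MP_b296c2_gt.IntermediateRicci
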